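import Pool.Agent.V1152.SMIF

set_option autoImplicit false

/-!
# The points of the standard map whose Schrödinger operator has an eigenvalue are spread evenly

`T_λ (x, y) = (2x - y + λ sin x, x)` modulo `2π`, for EVERY `λ` with `|λ| ≥ 2π`.  Let `Z` be the set
of the points `(x, y)` for which the operator `L_λ(x, y)` on `ℓ²(ℤ)` has an eigenvalue, and `m` the
normalised Lebesgue (outer) measure.  For all boxes `R`, products of a Borel set and an arc,
`m(Z ∩ R) = m(Z) m(R)` up to `C min(m(Z), 1 - m(Z))^(1/2) |λ|^(-1/6)`.  So, if `Z` is not a null set,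
it has positive outer measure in every box of area above `C m(Z)^(-1/2) |λ|^(-1/6)`.
-/

open Real MeasureTheory Function Filter

namespace Pool.Agent.Results.MP_31f1e8_mp.EigenvalueSetSpread

/-- The torus, in the coordinates `(x / 2π, y / 2π)`; `volume` is the normalised Lebesgue measure
`m` (on arbitrary sets: the outer measure). -/
abbrev Torus := UnitAddCircle × UnitAddCircle

/-- The point of the torus `ℝ² / (2πℤ)²` with the coordinates `x`, `y`. -/
noncomputable def point (x y : ℝ) : Torus :=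
  (((x / (2 * π) : ℝ) : UnitAddCircle), ((y / (2 * π) : ℝ) : UnitAddCircle))

/-- `T` is the standard map `T_λ`. -/
def IsStandardMap (lam : ℝ) (T : Torus → Torus) : Prop :=
  ∀ x y : ℝ, T (point x y) = point (2 * x - y + lam * sin x) x

/-- `X` is a two-sided orbit of `T_λ`, in real coordinates: the `n`-th point of the orbit of
`(X 0, X (-1))` is `(X n, X (n - 1))`. -/
def IsOrbit (lam : ℝ) (X : ℤ → ℝ) : Prop :=
  ∀ n : ℤ, X (n + 1) = 2 * X n - X (n - 1) + lam * sin (X n)

/-- The operator `(L u)_n = u_{n+1} - 2 u_n + u_{n-1} + λ cos(x_n) u_n` has an eigenvalue: some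
nonzero square summable `u` satisfies `L u = E u`. -/
def HasEigenvalue (lam : ℝ) (X : ℤ → ℝ) : Prop :=
  ∃ E : ℝ, ∃ u : ℤ → ℂ, (∃ n, u n ≠ 0) ∧ Summable (fun n => ‖u n‖ ^ 2) ∧
    ∀ n : ℤ, u (n + 1) - 2 * u n + u (n - 1) + ((lam * cos (X n) : ℝ) : ℂ) * u n = (E : ℂ) * u n

/-- The set of the points `(x, y)` for which `L_λ(x, y)` has nonempty point spectrum. -/
def eigenSet (lam : ℝ) : Set Torus :=
  {p | ∃ X : ℤ → ℝ, IsOrbit lam X ∧ p = point (X 0) (X (-1)) ∧ HasEigenvalue lam X}

/-- An open arc, the image of `(c - w, c + w)` with `0 < w ≤ 1/2`. -/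
def IsArc (J : Set UnitAddCircle) : Prop :=
  ∃ c w : ℝ, 0 < w ∧ w ≤ 1 / 2 ∧
    J = (fun t : ℝ => (t : UnitAddCircle)) '' Set.Ioo (c - w) (c + w)

/-- `R` is a box: a product of a Borel set and an arc, in one of the two orders. -/
def IsBox (R : Set Torus) : Prop :=
  ∃ E J : Set UnitAddCircle, MeasurableSet E ∧ IsArc J ∧ (R = E ×ˢ J ∨ R = J ×ˢ E)

theorem arc_prop {J : Set UnitAddCircle} (hJ : IsArc J) :
    MeasurableSet J ∧ V1152.SMI.Smoothable J 2 := by
  obtain ⟨c, w, hw, hw2, rfl⟩ := hJ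
  exact ⟨(V1152.SMI.arc_open (c := c) hw hw2).measurableSet, V1152.SMI.smoothable_arc hw hw2⟩

theorem S_point (lam x y : ℝ) :
    TH705.SM.S (lam / (2 * π)) (point x y) = point (2 * x - y + lam * sin x) x := by
  have hpi := Real.pi_pos
  unfold point
  rw [TH705.SM.S_coe]
  have e1 : 2 * π * (x / (2 * π)) = x := by field_simp
  have e : 2 * (x / (2 * π)) - y / (2 * π) + lam / (2 * π) * sin (2 * π * (x / (2 * π))) =
      (2 * x - y + lam * sin x) / (2 * π) := by
    rw [e1]
    field_simp
  rw [e]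

theorem exists_point (p : Torus) : ∃ x y : ℝ, p = point x y := by
  have hpi := Real.pi_pos
  obtain ⟨p1, p2⟩ := p
  induction p1 using QuotientAddGroup.induction_on with
  | H s =>
    induction p2 using QuotientAddGroup.induction_on with
    | H t =>
      refine ⟨2 * π * s, 2 * π * t, ?_⟩
      unfold point
      rw [mul_div_cancel_left₀ s (by positivity), mul_div_cancel_left₀ t (by positivity)]

theorem eq_S {lam : ℝ} {T : Torus → Torus} (hT : IsStandardMap lam T) :
    T = TH705.SM.S (lam / (2 * π)) := by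
  funext p
  obtain ⟨x, y, rfl⟩ := exists_point p
  rw [hT, S_point]

theorem shift {lam : ℝ} {X : ℤ → ℝ} (d : ℤ) (h : IsOrbit lam X) (hE : HasEigenvalue lam X) :
    IsOrbit lam (fun n => X (n + d)) ∧ HasEigenvalue lam (fun n => X (n + d)) := by
  constructor
  · intro n
    have := h (n + d)
    show X (n + 1 + d) = 2 * X (n + d) - X (n - 1 + d) + lam * sin (X (n + d))
    rw [show n + 1 + d = n + d + 1 by ring, show n - 1 + d = n + d - 1 by ring]
    exact this
  · obtain ⟨E, u, ⟨m, hm⟩, hs, hu⟩ := hE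
    refine ⟨E, fun n => u (n + d), ⟨m - d, ?_⟩, ?_, ?_⟩
    · show u (m - d + d) ≠ 0
      rwa [sub_add_cancel]
    · exact (Equiv.addRight d).summable_iff.2 hs
    · intro n
      have := hu (n + d)
      show u (n + 1 + d) - 2 * u (n + d) + u (n - 1 + d) +
        ((lam * cos (X (n + d)) : ℝ) : ℂ) * u (n + d) = (E : ℂ) * u (n + d)
      rw [show n + 1 + d = n + d + 1 by ring, show n - 1 + d = n + d - 1 by ring]
      exact this

/-- the set is invariant -/
theorem eigenSet_inv (lam : ℝ) :
    TH705.SM.S (lam / (2 * π)) ⁻¹' eigenSet lam = eigenSet lam := by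
  ext p
  constructor
  · rintro ⟨X, hX, hp, hE⟩
    obtain ⟨h1, h2⟩ := shift (-1) hX hE
    refine ⟨fun n => X (n + -1), h1, ?_, h2⟩
    have e1 : TH705.SM.S (lam / (2 * π)) (point (X (-1)) (X (-2))) = point (X 0) (X (-1)) := by
      rw [S_point]
      have := hX (-1)
      norm_num at this
      rw [show 2 * X (-1) - X (-2) + lam * sin (X (-1)) = X 0 from this.symm]
    rw [← e1] at hp
    have e2 := congrArg (TH705.SM.Si (lam / (2 * π))) hp
    rw [TH705.SM.Si_S, TH705.SM.Si_S] at e2
    rw [e2]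
    norm_num
  · rintro ⟨X, hX, rfl, hE⟩
    obtain ⟨h1, h2⟩ := shift 1 hX hE
    refine ⟨fun n => X (n + 1), h1, ?_, h2⟩
    rw [S_point]
    have := hX 0
    norm_num at this
    norm_num
    rw [this]

theorem coe_eq {x y : ℝ}
    (h : ((x / (2 * π) : ℝ) : UnitAddCircle) = ((y / (2 * π) : ℝ) : UnitAddCircle)) :
    ∃ k : ℤ, x = y + k * (2 * π) := by
  have hpi := Real.pi_pos
  rw [QuotientAddGroup.eq_iff_sub_mem, AddSubgroup.mem_zmultiples_iff] at h
  obtain ⟨k, hk⟩ := h
  refine ⟨k, ?_⟩
  have h2 : (k : ℝ) = x / (2 * π) - y / (2 * π) := by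
    rw [← hk]
    simp
  rw [h2]
  field_simp
  ring

/-- two real orbits of one point differ by multiples of `2π` -/
theorem lifts {lam : ℝ} {X X' : ℤ → ℝ} (h : IsOrbit lam X) (h' : IsOrbit lam X')
    (hp : point (X 0) (X (-1)) = point (X' 0) (X' (-1))) (n : ℤ) :
    ∃ k : ℤ, X n = X' n + k * (2 * π) := by
  have key : ∀ n : ℤ, (∃ k : ℤ, X n = X' n + k * (2 * π)) ∧
      ∃ k : ℤ, X (n - 1) = X' (n - 1) + k * (2 * π) := by
    intro n
    induction n using Int.induction_on with
    | zero =>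
      have h1 := congrArg Prod.fst hp
      have h2 := congrArg Prod.snd hp
      exact ⟨coe_eq h1, coe_eq h2⟩
    | succ m ih =>
      obtain ⟨⟨k, hk⟩, ⟨l, hl⟩⟩ := ih
      refine ⟨⟨2 * k - l, ?_⟩, k, ?_⟩
      · rw [h, h', hk, hl, Real.sin_add_int_mul_two_pi]
        push_cast
        ring
      · rw [add_sub_cancel_right]
        exact hk
    | pred m ih =>
      obtain ⟨⟨k, hk⟩, ⟨l, hl⟩⟩ := ih
      refine ⟨⟨l, hl⟩, 2 * l - k, ?_⟩
      have a1 := h (-(m : ℤ) - 1)
      have a2 := h' (-(m : ℤ) - 1)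
      rw [sub_add_cancel] at a1 a2
      rw [hl, Real.sin_add_int_mul_two_pi] at a1
      push_cast
      linarith
  exact (key n).1

/-- a point is in the set exactly when the operator of its orbit has an eigenvalue, for any real
coordinates of the orbit -/
theorem mem_eigenSet {lam : ℝ} {X : ℤ → ℝ} (h : IsOrbit lam X) :
    point (X 0) (X (-1)) ∈ eigenSet lam ↔ HasEigenvalue lam X := by
  constructor
  · rintro ⟨X', h', hp, E, u, hu, hs, he⟩
    refine ⟨E, u, hu, hs, fun n => ?_⟩
    obtain ⟨k, hk⟩ := lifts h h' hp n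
    have : cos (X n) = cos (X' n) := by rw [hk, Real.cos_add_int_mul_two_pi]
    rw [this]
    exact he n
  · intro hE
    exact ⟨X, h, rfl, hE⟩

/-- **The eigenvalue set is spread evenly over the boxes.** -/
theorem result : ∃ C : ℝ, 0 < C ∧ ∀ lam : ℝ, 2 * π ≤ |lam| →
    -- (1) invariance
    (∀ T : Torus → Torus, IsStandardMap lam T → T ⁻¹' eigenSet lam = eigenSet lam) ∧
    -- (2) near independence, for the outer measure
    (∀ R : Set Torus, IsBox R →
      |volume.real (eigenSet lam ∩ R) - volume.real (eigenSet lam) * volume.real R| ≤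
        C * √(min (volume.real (eigenSet lam)) (1 - volume.real (eigenSet lam))) *
          |lam| ^ (-(1 / 6) : ℝ)) ∧
    -- (3) if the set is null in a box, its outer measure is small
    (∀ R : Set Torus, IsBox R → volume (eigenSet lam ∩ R) = 0 →
      volume.real (eigenSet lam) * volume.real R ^ 2 ≤ C ^ 2 * |lam| ^ (-(1 / 3) : ℝ)) := by
  have hCC := V1152.SMI.CC_pos
  have hpi := Real.pi_pos
  have hvol : ∀ E J : Set UnitAddCircle, volume.real (E ×ˢ J) = volume.real E * volume.real J := by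
    intro E J
    have : (volume : Measure Torus) (E ×ˢ J) = volume E * volume J := by
      rw [TH705.SM.vol_T2, Measure.prod_prod]
    rw [measureReal_def, this, ENNReal.toReal_mul]
    rfl
  have hC0 : 0 < √(V1152.SMI.CC * (1 + 2)) * (2 * π) ^ (1 / 6 : ℝ) := by positivity
  refine ⟨√(V1152.SMI.CC * (1 + 2)) * (2 * π) ^ (1 / 6 : ℝ), hC0, ?_⟩
  intro lam hlam
  set a := lam / (2 * π) with had
  have habs : |a| = |lam| / (2 * π) := by
    rw [had, abs_div, abs_of_pos (by positivity : (0:ℝ) < 2 * π)]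
  have ha : 1 ≤ |a| := by
    rw [habs, le_div_iff₀ (by positivity), one_mul]
    exact hlam
  have hl0 : 0 < |lam| := lt_of_lt_of_le (by positivity) hlam
  have hpow : |a| ^ (-(1 / 6) : ℝ) = (2 * π) ^ (1 / 6 : ℝ) * |lam| ^ (-(1 / 6) : ℝ) := by
    rw [habs, Real.div_rpow hl0.le (by positivity), Real.rpow_neg (by positivity : (0:ℝ) ≤ 2 * π),
      div_inv_eq_mul, mul_comm]
  set Z := eigenSet lam with hZ
  have hZi : TH705.SM.S a ⁻¹' Z = Z := eigenSet_inv lam
  -- an invariant Borel hull
  set H0 := toMeasurable (volume : Measure Torus) Z with hH0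
  have hH0m : MeasurableSet H0 := measurableSet_toMeasurable _ _
  have hcontS := TH705.SM.S_cont a
  have hcontSi := TH705.SM.Si_cont a
  have hSSi : ∀ p, TH705.SM.S a (TH705.SM.Si a p) = p := by
    intro p
    have h1 : Function.LeftInverse (TH705.SM.Si a) (TH705.SM.S a) := TH705.SM.Si_S a
    unfold TH705.SM.S TH705.SM.Si
    simp
  have hZSi : ∀ p, p ∈ Z ↔ TH705.SM.Si a p ∈ Z := by
    intro p
    conv_lhs => rw [← hSSi p, ← Set.mem_preimage, hZi]
  set H : Set Torus := (⋂ n : ℕ, (TH705.SM.S a)^[n] ⁻¹' H0) ∩ ⋂ n : ℕ, (TH705.SM.Si a)^[n] ⁻¹' H0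
    with hH
  have hHm : MeasurableSet H :=
    (MeasurableSet.iInter fun n => (hcontS.iterate n).measurable hH0m).inter
      (MeasurableSet.iInter fun n => (hcontSi.iterate n).measurable hH0m)
  have hZH0 : Z ⊆ H0 := subset_toMeasurable _ _
  have hZn : ∀ n : ℕ, ∀ p ∈ Z, (TH705.SM.S a)^[n] p ∈ Z := by
    intro n
    induction n with
    | zero => intro p hp; exact hp
    | succ n ih =>
      intro p hp
      rw [iterate_succ_apply]
      exact ih _ (by rw [← Set.mem_preimage, hZi]; exact hp)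
  have hZn' : ∀ n : ℕ, ∀ p ∈ Z, (TH705.SM.Si a)^[n] p ∈ Z := by
    intro n
    induction n with
    | zero => intro p hp; exact hp
    | succ n ih =>
      intro p hp
      rw [iterate_succ_apply]
      exact ih _ ((hZSi p).1 hp)
  have hZH : Z ⊆ H := by
    intro p hp
    refine ⟨Set.mem_iInter.2 fun n => hZH0 (hZn n p hp),
      Set.mem_iInter.2 fun n => hZH0 (hZn' n p hp)⟩
  have hHH0 : H ⊆ H0 := fun p hp => Set.mem_iInter.1 hp.1 0
  have hHi : TH705.SM.S a ⁻¹' H = H := by
    ext p
    constructor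
    · rintro ⟨h1, h2⟩
      rw [Set.mem_iInter] at h1 h2
      refine ⟨Set.mem_iInter.2 fun n => ?_, Set.mem_iInter.2 fun n => ?_⟩
      · cases n with
        | zero =>
          have := h2 1
          simp only [Set.mem_preimage, iterate_one] at this
          rw [TH705.SM.Si_S] at this
          exact this
        | succ n => exact h1 n
      · have := h2 (n + 1)
        rw [Set.mem_preimage, iterate_succ_apply, TH705.SM.Si_S] at this
        exact this
    · rintro ⟨h1, h2⟩
      rw [Set.mem_iInter] at h1 h2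
      refine ⟨Set.mem_iInter.2 fun n => ?_, Set.mem_iInter.2 fun n => ?_⟩
      · exact h1 (n + 1)
      · cases n with
        | zero => exact h1 1
        | succ n =>
          rw [Set.mem_preimage, iterate_succ_apply, TH705.SM.Si_S]
          exact h2 n
  have hHZ : ∀ R : Set Torus, MeasurableSet R → volume (H ∩ R) = volume (Z ∩ R) := by
    intro R hR
    apply le_antisymm
    · calc volume (H ∩ R) ≤ volume (H0 ∩ R) := measure_mono (Set.inter_subset_inter_left _ hHH0)
        _ = volume (Z ∩ R) := Measure.measure_toMeasurable_inter_of_sFinite hR Z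
    · exact measure_mono (Set.inter_subset_inter_left _ hZH)
  have hHZ' : volume H = volume Z := by
    have := hHZ Set.univ MeasurableSet.univ
    rwa [Set.inter_univ, Set.inter_univ] at this
  have hv : volume.real Z = volume.real H := by rw [measureReal_def, measureReal_def, hHZ']
  set C := √(V1152.SMI.CC * (1 + 2)) * (2 * π) ^ (1 / 6 : ℝ) with hC
  have key : ∀ R : Set Torus, IsBox R →
      |volume.real (Z ∩ R) - volume.real Z * volume.real R| ≤
        C * √(min (volume.real Z) (1 - volume.real Z)) * |lam| ^ (-(1 / 6) : ℝ) := by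
    rintro R ⟨E, J, hE, hJ, hR⟩
    obtain ⟨hJm, hJs⟩ := arc_prop hJ
    have e : C * √(min (volume.real Z) (1 - volume.real Z)) * |lam| ^ (-(1 / 6) : ℝ) =
        √(V1152.SMI.CC * (1 + 2)) * √(min (volume.real H) (1 - volume.real H)) *
          |a| ^ (-(1 / 6) : ℝ) := by
      rw [hpow, hC, hv]
      ring
    rw [e]
    rcases hR with rfl | rfl
    · rw [measureReal_def, ← hHZ _ (hE.prod hJm), ← measureReal_def, hvol, hv]
      exact V1152.SMI.box_min ha hHm hHi hE hJm (by norm_num) hJs
    · rw [measureReal_def, ← hHZ _ (hJm.prod hE), ← measureReal_def, hvol, hv]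
      exact V1152.SMI.box_swap ha hHm hHi hE hJm (by norm_num) hJs
  clear_value C
  refine ⟨?_, key, ?_⟩
  · intro T hT
    rw [eq_S hT]
    exact hZi
  · intro R hR h0
    have h1 := key R hR
    have h2 : volume.real (Z ∩ R) = 0 := by
      rw [measureReal_def, h0]
      rfl
    set v := volume.real Z with hvd
    set ρ := volume.real R with hρ
    have hv0 : 0 ≤ v := measureReal_nonneg
    have hρ0 : 0 ≤ ρ := measureReal_nonneg
    have hp : 0 < |lam| ^ (-(1 / 6) : ℝ) := Real.rpow_pos_of_pos hl0 _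
    rw [h2, zero_sub, abs_neg, abs_of_nonneg (mul_nonneg hv0 hρ0)] at h1
    have h3 : √(min v (1 - v)) ≤ √v := Real.sqrt_le_sqrt (min_le_left _ _)
    have h4 : v * ρ ≤ C * √v * |lam| ^ (-(1 / 6) : ℝ) := by
      refine h1.trans ?_
      apply mul_le_mul_of_nonneg_right _ hp.le
      exact mul_le_mul_of_nonneg_left h3 hC0.le
    have h7 : (|lam| ^ (-(1 / 6) : ℝ)) ^ 2 = |lam| ^ (-(1 / 3) : ℝ) := by
      rw [← Real.rpow_natCast, ← Real.rpow_mul hl0.le]
      norm_num
    have h5 : (v * ρ) ^ 2 ≤ v * (C ^ 2 * |lam| ^ (-(1 / 3) : ℝ)) := by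
      have h6 : (v * ρ) ^ 2 ≤ (C * √v * |lam| ^ (-(1 / 6) : ℝ)) ^ 2 :=
        pow_le_pow_left₀ (mul_nonneg hv0 hρ0) h4 2
      refine h6.trans (le_of_eq ?_)
      rw [mul_pow, mul_pow, Real.sq_sqrt hv0, h7]
      ring
    rcases hv0.lt_or_eq with hpos | hz
    · have h8 : v * (v * ρ ^ 2) ≤ v * (C ^ 2 * |lam| ^ (-(1 / 3) : ℝ)) := by
        refine le_trans (le_of_eq ?_) h5
        ring
      exact le_of_mul_le_mul_left h8 hpos
    · rw [← hz, zero_mul]
      positivity

end Pool.Agent.Results.MP_31f1e8_mp.EigenvalueSetSpread
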